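import Pool.Agent.H65.HX.GBas

/-! Part ASM of project HX: the final labelling. -/

set_option autoImplicit false
open Classical Finset

namespace Pool.Agent.H59.HX

open Pool.Agent.H21.HV (nb Prp TotLab)
open Pool.Agent.H39.HW (sm Av ln blk lab Reg)
open Pool.Agent.H65.HX
open Pool.Agent.H65.HW (cell S_KOE S_VIZ S_PRT S_GRE S_BLB S_TSA S_HAL2 S_HALC S_SEL Bip)

section

variable {V : Type} [Fintype V]

/-- the kind of an edge -/
noncomputable def kd (T L : SimpleGraph V) (s : Dat) (cl : V → ℕ) (u v : V) : ℕ :=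
  if T.Adj u v then 1 else if L.Adj u v then 2 else
    if cl u = cl v ∧ cl u ∈ s.R then 3 else if s.B ≤ cl u ∧ s.B ≤ cl v then 4 else 5

/-- the label of an edge -/
noncomputable def ee (T L : SimpleGraph V) (s : Dat) (cl : V → ℕ) (c h f k g : V → V → ℕ)
    (u v : V) : ℕ :=
  if kd T L s cl u v = 1 then c u v else if kd T L s cl u v = 2 then h u v else
    if kd T L s cl u v = 3 then f u v else if kd T L s cl u v = 4 then k u v else g u v

lemma kd_symm (T L : SimpleGraph V) (s : Dat) (cl : V → ℕ) (u v : V) :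
    kd T L s cl u v = kd T L s cl v u := by
  unfold kd
  have h1 : T.Adj u v ↔ T.Adj v u := T.adj_comm u v
  have h2 : L.Adj u v ↔ L.Adj v u := L.adj_comm u v
  have h3 : (cl u = cl v ∧ cl u ∈ s.R) ↔ (cl v = cl u ∧ cl v ∈ s.R) := by
    constructor
    · rintro ⟨a, b⟩; exact ⟨a.symm, a ▸ b⟩
    · rintro ⟨a, b⟩; exact ⟨a.symm, a ▸ b⟩
  have h4 : (s.B ≤ cl u ∧ s.B ≤ cl v) ↔ (s.B ≤ cl v ∧ s.B ≤ cl u) := and_comm
  simp only [h1, h2, h3, h4]

lemma kd_cases (T L : SimpleGraph V) (s : Dat) (cl : V → ℕ) (u v : V) :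
    (kd T L s cl u v = 1 ∧ T.Adj u v) ∨ (kd T L s cl u v = 2 ∧ ¬ T.Adj u v ∧ L.Adj u v) ∨
    (kd T L s cl u v = 3 ∧ ¬ T.Adj u v ∧ ¬ L.Adj u v ∧ cl u = cl v ∧ cl u ∈ s.R) ∨
    (kd T L s cl u v = 4 ∧ ¬ T.Adj u v ∧ ¬ L.Adj u v ∧ s.B ≤ cl u ∧ s.B ≤ cl v) ∨
    (kd T L s cl u v = 5 ∧ ¬ T.Adj u v ∧ ¬ L.Adj u v ∧ ¬ (cl u = cl v ∧ cl u ∈ s.R) ∧
      ¬ (s.B ≤ cl u ∧ s.B ≤ cl v)) := by
  unfold kd
  by_cases h1 : T.Adj u v
  · left; simp [h1]
  · by_cases h2 : L.Adj u v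
    · right; left; simp [h1, h2]
    · by_cases h3 : cl u = cl v ∧ cl u ∈ s.R
      · right; right; left; rw [if_neg h1, if_neg h2, if_pos h3]; exact ⟨rfl, h1, h2, h3⟩
      · by_cases h4 : s.B ≤ cl u ∧ s.B ≤ cl v
        · right; right; right; left
          rw [if_neg h1, if_neg h2, if_neg h3, if_pos h4]; exact ⟨rfl, h1, h2, h4⟩
        · right; right; right; right
          rw [if_neg h1, if_neg h2, if_neg h3, if_neg h4]; exact ⟨rfl, h1, h2, h3, h4⟩

variable {G : SimpleGraph V} {D p : ℕ} {s : Dat} {cl x : V → ℕ} {f : V → V → ℕ}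
  {T : SimpleGraph V} {c : V → V → ℕ} {X : SimpleGraph V} {bX : V → V → ℕ}
  {L : SimpleGraph V} {h g k : V → V → ℕ}

/-- the labels of kind `i` at a vertex of a row -/
def PR (G : SimpleGraph V) (D p : ℕ) (s : Dat) (cl x : V → ℕ) (f : V → V → ℕ)
    (z : V) (i n : ℕ) : Prop :=
  (i = 1 ∧ n ∈ Tz G D p s cl x f z) ∨ (i = 2 ∧ ∃ P < s.H, n ∈ lab s.st (s.S P (cl z))) ∨
  (i = 3 ∧ (∃ v, G.Adj z v ∧ cl v = cl z ∧ f z v = n) ∧ n ∈ blk s.st (sm s.B (cl z) (cl z))) ∨
  (i = 5 ∧ n ∈ lab s.st (s.cls p (cl z)))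

/-- the labels of kind `i` at a special vertex -/
def PS (s : Dat) (cl : V → ℕ) (u : V) (i n : ℕ) : Prop :=
  (i = 1 ∧ n ∉ lab s.st (s.F (s.part (cl u - s.B))) ∧
    ∀ a ∈ s.R, n ∉ blk s.st (s.φ (cl u - s.B) a)) ∨
  (i = 2 ∧ ∃ a ∈ s.R, n ∈ lab s.st (s.S (s.part (cl u - s.B)) a)) ∨
  (i = 4 ∧ ∃ Q < s.H, n ∈ lab s.st (s.Φ (s.part (cl u - s.B)) Q)) ∨
  (i = 5 ∧ ∃ a ∈ s.R, n ∈ blk s.st (s.φ (cl u - s.B) a))

lemma PR_disj (hs : Sch D p s) {z : V} (hz : cl z ∈ s.R) {i j n : ℕ}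
    (h1 : PR G D p s cl x f z i n) (h2 : PR G D p s cl x f z j n) : i = j := by
  have key : ∀ i j, i < j → PR G D p s cl x f z i n → PR G D p s cl x f z j n → False := by
    intro i j hij h1 h2
    have hTz : n ∈ Tz G D p s cl x f z → n ∉ lab s.st (s.cls p (cl z)) ∧
      (∀ P < s.H, n ∉ lab s.st (s.S P (cl z))) ∧ ∀ v, G.Adj z v → cl v = cl z → f z v ≠ n := by
      intro hn
      unfold Tz at hn
      exact (mem_filter.1 hn).2.2
    rcases h1 with ⟨rfl, h1⟩ | ⟨rfl, h1⟩ | ⟨rfl, h1⟩ | ⟨rfl, h1⟩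
    · obtain ⟨t1, t2, t3⟩ := hTz h1
      rcases h2 with ⟨h0, h2⟩ | ⟨h0, h2⟩ | ⟨h0, h2, h3⟩ | ⟨h0, h2⟩
      · omega
      · obtain ⟨P, hP, h2⟩ := h2
        exact t2 P hP h2
      · obtain ⟨v, hv1, hv2, hv3⟩ := h2
        exact t3 v hv1 hv2 hv3
      · exact t1 h2
    · obtain ⟨P, hP, h1⟩ := h1
      obtain ⟨β, hβ, hn⟩ := mem_lab.1 h1
      rcases h2 with ⟨h0, h2⟩ | ⟨h0, h2⟩ | ⟨h0, h2, h3⟩ | ⟨h0, h2⟩
      · omega
      · omega
      · have := blk_unique hs.stm hn h3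
        exact (hs.S1 P hP _ hz β hβ).2.2.2.1 this
      · have := (mem_lab_iff hs.stm hn).1 h2
        exact (mem_cls.1 this).2.2.2 P hP hβ
    · obtain ⟨-, h1⟩ := h1
      rcases h2 with ⟨h0, h2⟩ | ⟨h0, h2⟩ | ⟨h0, h2, h3⟩ | ⟨h0, h2⟩
      · omega
      · omega
      · omega
      · have := (mem_lab_iff hs.stm h1).1 h2
        exact (mem_cls.1 this).2.2.1 rfl
    · rcases h2 with ⟨h0, h2⟩ | ⟨h0, h2⟩ | ⟨h0, h2, h3⟩ | ⟨h0, h2⟩ <;> omega
  rcases lt_trichotomy i j with hlt | hlt | hlt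
  · exact (key i j hlt h1 h2).elim
  · exact hlt
  · exact (key j i hlt h2 h1).elim

lemma PS_disj (hs : Sch D p s) {u : V} (hu : cl u - s.B < s.m) {i j n : ℕ}
    (h1 : PS s cl u i n) (h2 : PS s cl u j n) : i = j := by
  have hP := hs.prt _ hu
  have key : ∀ i j, i < j → PS s cl u i n → PS s cl u j n → False := by
    intro i j hij h1 h2
    rcases h1 with ⟨rfl, h1, h1'⟩ | ⟨rfl, h1⟩ | ⟨rfl, h1⟩ | ⟨rfl, h1⟩
    · rcases h2 with ⟨h0, h2⟩ | ⟨h0, h2⟩ | ⟨h0, h2⟩ | ⟨h0, h2⟩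
      · omega
      · obtain ⟨a, ha, h2⟩ := h2
        obtain ⟨β, hβ, hn⟩ := mem_lab.1 h2
        exact h1 (blk_sub_lab (hs.S1 _ hP a ha β hβ).2.2.2.2.2 hn)
      · obtain ⟨Q, hQ, h2⟩ := h2
        obtain ⟨β, hβ, hn⟩ := mem_lab.1 h2
        exact h1 (blk_sub_lab (hs.Ph2 _ hP Q hQ β hβ).2.2.1 hn)
      · obtain ⟨a, ha, h2⟩ := h2
        exact h1' a ha h2
    · obtain ⟨a, ha, h1⟩ := h1
      obtain ⟨β, hβ, hn⟩ := mem_lab.1 h1
      rcases h2 with ⟨h0, h2⟩ | ⟨h0, h2⟩ | ⟨h0, h2⟩ | ⟨h0, h2⟩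
      · omega
      · omega
      · obtain ⟨Q, hQ, h2⟩ := h2
        have h3 := (mem_lab_iff hs.stm hn).1 h2
        exact (hs.Ph2 _ hP Q hQ β h3).2.2.2 a ha hβ
      · obtain ⟨b, hb, h2⟩ := h2
        have h3 := blk_unique hs.stm hn h2
        apply hs.ph4 _ hu b hb
        rw [← h3]
        exact (hs.S1 _ hP a ha β hβ).2.2.2.2.2
    · obtain ⟨Q, hQ, h1⟩ := h1
      obtain ⟨β, hβ, hn⟩ := mem_lab.1 h1
      rcases h2 with ⟨h0, h2⟩ | ⟨h0, h2⟩ | ⟨h0, h2⟩ | ⟨h0, h2⟩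
      · omega
      · omega
      · omega
      · obtain ⟨b, hb, h2⟩ := h2
        have h3 := blk_unique hs.stm hn h2
        apply hs.ph4 _ hu b hb
        rw [← h3]
        exact (hs.Ph2 _ hP Q hQ β hβ).2.2.1
    · rcases h2 with ⟨h0, h2⟩ | ⟨h0, h2⟩ | ⟨h0, h2⟩ | ⟨h0, h2⟩ <;> omega
  rcases lt_trichotomy i j with hlt | hlt | hlt
  · exact (key i j hlt h1 h2).elim
  · exact hlt
  · exact (key j i hlt h2 h1).elim

lemma not_row_of_le (hs : Sch D p s) {n : ℕ} (hn : s.B ≤ n) : n ∉ s.R := by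
  intro hc
  have := row_lt hs hc
  omega

lemma rem_of_kd (hc : Ctx G D p s cl) {u v : V} (hadj : G.Adj u v)
    (h5 : ¬ T.Adj u v ∧ ¬ L.Adj u v ∧ ¬ (cl u = cl v ∧ cl u ∈ s.R) ∧
      ¬ (s.B ≤ cl u ∧ s.B ≤ cl v)) : Rem G T L s cl u v := by
  obtain ⟨h1, h2, h3, h4⟩ := h5
  have hu := hc.val u
  have hv := hc.val v
  refine ⟨hadj, h1, h2, ?_, ?_⟩
  · intro he
    rcases hu with hu | hu
    · exact h3 ⟨he, hu⟩
    · exact h4 ⟨hu.1, he ▸ hu.1⟩
  · rcases hu with hu | hu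
    · exact Or.inl hu
    · rcases hv with hv | hv
      · exact Or.inr hv
      · exact (h4 ⟨hu.1, hv.1⟩).elim

/-- the block of an edge between different rows is a class of both rows -/
lemma be_mem_cls (hs : Sch D p s) (hX : Xgr G T D p s cl X bX) {z v : V} (hz : cl z ∈ s.R)
    (hv : cl v ∈ s.R) (hne : cl z ≠ cl v) : be s cl X bX z v ∈ s.cls p (cl z) := by
  unfold be
  by_cases hadj : X.Adj z v
  · rw [if_pos hadj]
    rcases hX.sup z v hadj with ⟨h1, τ, h2⟩ | ⟨⟨τ, h1⟩, h2⟩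
    · have h3 := hX.blo z v τ hadj h1 h2
      exact (hs.xc1 τ _ h3 _ h1).1
    · have h3 := hX.blo v z τ hadj.symm h2 h1
      rw [hX.sym v z] at h3
      exact hs.xc2 τ _ h3 _ h1
  · rw [if_neg hadj]
    exact sm_mem_cls hs hz hv hne

/-- the label of an edge at a vertex of a row -/
lemma PR_ee (hc : Ctx G D p s cl) (hf : Loo G s cl f)
    (hT : Tgr G D p s cl x f T c) (hX : Xgr G T D p s cl X bX) (hL : Lgr G T D p s cl X bX L) (hh : Lef s cl L h)
    (hg : Pal G T s cl X bX L g) {z v : V} (hz : cl z ∈ s.R) (hadj : G.Adj z v) :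
    PR G D p s cl x f z (kd T L s cl z v) (ee T L s cl c h f k g z v) := by
  have hs := hc.sch
  have hzB := row_lt hs hz
  rcases kd_cases T L s cl z v with ⟨h0, h1⟩ | ⟨h0, h1, h2⟩ | ⟨h0, h1, h2, h3, h4⟩ |
    ⟨h0, h1, h2, h3, h4⟩ | ⟨h0, h1⟩
  · unfold ee PR
    simp only [h0]
    left
    exact ⟨trivial, hT.mem z v h1 hz⟩
  · unfold ee PR
    simp only [h0]
    right; left
    have hv : s.B ≤ cl v := by
      rcases hL.sup z v h2 with h3 | h3
      · exact h3.2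
      · exact absurd h3.1 (by omega)
    have hvm : cl v - s.B < s.m := by
      rcases hc.val v with h4 | h4
      · exact absurd h4 (not_row_of_le hs hv)
      · omega
    exact ⟨trivial, _, hs.prt _ hvm, hh.mem z v h2 hz⟩
  · unfold ee PR
    simp only [h0]
    right; right; left
    refine ⟨trivial, ⟨v, hadj, h3.symm, rfl⟩, ?_⟩
    exact hf.mem z v hadj hz h3
  · omega
  · unfold ee PR
    simp only [h0]
    right; right; right
    refine ⟨trivial, ?_⟩
    have hrem := rem_of_kd hc hadj h1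
    rcases hc.val v with hv | hv
    · have h2 := hg.row z v hrem hz hv
      exact blk_sub_lab (be_mem_cls hs hX hz hv hrem.2.2.2.1) h2
    · have h2 := hg.ser z v hrem hz hv.1
      exact blk_sub_lab (hs.ph1 _ (by omega) _ hz) h2

/-- the label of an edge at a special vertex -/
lemma PS_ee (hc : Ctx G D p s cl)
    (hT : Tgr G D p s cl x f T c) (hL : Lgr G T D p s cl X bX L) (hh : Lef s cl L h)
    (hg : Pal G T s cl X bX L g) (hk : Yye G s cl k) {u v : V} (hu : s.B ≤ cl u) (hadj : G.Adj u v) :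
    PS s cl u (kd T L s cl u v) (ee T L s cl c h f k g u v) := by
  have hs := hc.sch
  have huR := not_row_of_le hs hu
  rcases kd_cases T L s cl u v with ⟨h0, h1⟩ | ⟨h0, h1, h2⟩ | ⟨h0, h1, h2, h3, h4⟩ |
    ⟨h0, h1, h2, h3, h4⟩ | ⟨h0, h1⟩
  · unfold ee PS
    simp only [h0]
    left
    have hv : cl v ∈ s.R := by
      rcases hT.sup u v h1 with h3 | h3
      · exact absurd h3.1 huR
      · exact h3.2
    rw [hT.sym u v]
    exact ⟨trivial, hT.fre v u h1.symm hv, hT.ser v u h1.symm hv⟩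
  · unfold ee PS
    simp only [h0]
    right; left
    have hv : cl v ∈ s.R := by
      rcases hL.sup u v h2 with h3 | h3
      · exact absurd h3.1 huR
      · exact h3.2
    rw [hh.sym u v]
    exact ⟨trivial, cl v, hv, hh.mem v u h2.symm hv⟩
  · exact absurd h4 huR
  · unfold ee PS
    simp only [h0]
    right; right; left
    have hvm : cl v - s.B < s.m := by
      rcases hc.val v with h5 | h5
      · exact absurd h5 (not_row_of_le hs h4)
      · omega
    exact ⟨trivial, _, hs.prt _ hvm, hk.mem u v hadj h3 h4⟩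
  · unfold ee PS
    simp only [h0]
    right; right; right
    have hrem := rem_of_kd hc hadj h1
    have hv : cl v ∈ s.R := by
      rcases hrem.2.2.2.2 with h2 | h2
      · exact absurd h2 huR
      · exact h2
    have hrem' : Rem G T L s cl v u :=
      ⟨hrem.1.symm, fun h => hrem.2.1 h.symm, fun h => hrem.2.2.1 h.symm, hrem.2.2.2.1.symm,
        hrem.2.2.2.2.symm⟩
    refine ⟨trivial, cl v, hv, ?_⟩
    rw [hg.sym u v]
    exact hg.ser v u hrem' hv hu

/-- same kind, same vertex: different labels -/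
lemma same_kind (hc : Ctx G D p s cl) (hf : Loo G s cl f)
    (hT : Tgr G D p s cl x f T c) (hh : Lef s cl L h)
    (hg : Pal G T s cl X bX L g) (hk : Yye G s cl k) {u v w : V} (huv : G.Adj u v)
    (huw : G.Adj u w) (hvw : v ≠ w) (he : kd T L s cl u v = kd T L s cl u w) :
    ee T L s cl c h f k g u v ≠ ee T L s cl c h f k g u w := by
  rcases kd_cases T L s cl u v with ⟨h0, h1⟩ | ⟨h0, h1, h2⟩ | ⟨h0, h1, h2, h3, h4⟩ |
    ⟨h0, h1, h2, h3, h4⟩ | ⟨h0, h1⟩ <;>
  rcases kd_cases T L s cl u w with ⟨k0, k1⟩ | ⟨k0, k1, k2⟩ | ⟨k0, k1, k2, k3, k4⟩ |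
    ⟨k0, k1, k2, k3, k4⟩ | ⟨k0, k1⟩ <;>
  (try (exfalso; omega)) <;>
  (unfold ee; simp only [h0, k0])
  · exact hT.prp u v w h1 k1 hvw
  · exact hh.prp u v w h2 k2 hvw
  · exact hf.prp u v w huv huw h4 h3 k3 hvw
  · exact hk.prp u v w huv huw h3 h4 k4 hvw
  · exact hg.prp u v w (rem_of_kd hc huv h1) (rem_of_kd hc huw k1) hvw

lemma ee_symm (hf : Loo G s cl f)
    (hT : Tgr G D p s cl x f T c) (hh : Lef s cl L h)
    (hg : Pal G T s cl X bX L g) (hk : Yye G s cl k) (u v : V) :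
    ee T L s cl c h f k g u v = ee T L s cl c h f k g v u := by
  unfold ee
  rw [kd_symm T L s cl u v, hT.sym u v, hh.sym u v, hf.sym u v, hk.sym u v, hg.sym u v]

lemma PR_dist (hc : Ctx G D p s cl) (hx : Win G D p s cl x) {z : V} (hz : cl z ∈ s.R) {i n : ℕ}
    (h1 : PR G D p s cl x f z i n) : (n + p ≤ x z ∨ x z + p ≤ n) ∧ n < D + 2 * p := by
  have hs := hc.sch
  have hxz : x z ∈ blk s.st (cl z) := mem_blk.2 (hx.row z hz)
  have key : ∀ β, β < s.B → Av s.st p (cl z) β → n ∈ blk s.st β →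
      (n + p ≤ x z ∨ x z + p ≤ n) ∧ n < D + 2 * p := by
    intro β hβ hav hn
    refine ⟨?_, blk_lt hs hβ hn⟩
    rcases Av_dist hav hxz hn with h | h
    · exact Or.inr h
    · exact Or.inl h
  rcases h1 with ⟨-, h1⟩ | ⟨-, h1⟩ | ⟨-, -, h1⟩ | ⟨-, h1⟩
  · unfold Tz at h1
    rw [mem_filter, mem_range] at h1
    exact ⟨h1.2.1, h1.1⟩
  · obtain ⟨P, hP, h1⟩ := h1
    obtain ⟨β, hβ, hn⟩ := mem_lab.1 h1
    have := hs.S1 P hP _ hz β hβ
    exact key β this.1 this.2.1 hn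
  · have := dist_rows hs hz hz
    exact key _ this.1 this.2 h1
  · obtain ⟨β, hβ, hn⟩ := mem_lab.1 h1
    have := mem_cls.1 hβ
    exact key β this.1 this.2.1 hn

lemma Al_dist {β n ξ N : ℕ} {τ : Bool} {D p : ℕ} {s : Dat} (h : s.Al D p τ β)
    (hn : n ∈ blk s.st β) : (τ = true → p + s.ξ ≤ n) ∧ (τ = false → n + p + s.ξ ≤ D + 2 * p) := by
  rw [mem_blk] at hn
  unfold Dat.Al at h
  constructor
  · intro ht
    rw [ht] at h
    simp only [if_true] at h
    omega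
  · intro ht
    rw [ht] at h
    simp only [Bool.false_eq_true, if_false] at h
    omega

lemma PS_dist (hc : Ctx G D p s cl) (hx : Win G D p s cl x)
    (hT : Tgr G D p s cl x f T c) {u v : V} (hu : s.B ≤ cl u) (hadj : G.Adj u v) {n : ℕ}
    (hn : n = ee T L s cl c h f k g u v)
    (h1 : PS s cl u (kd T L s cl u v) n) : (n + p ≤ x u ∨ x u + p ≤ n) ∧ n < D + 2 * p := by
  have hs := hc.sch
  have huR := not_row_of_le hs hu
  have hum : cl u - s.B < s.m := by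
    rcases hc.val u with h5 | h5
    · exact absurd h5 huR
    · omega
  have hP := hs.prt _ hum
  have hpp := hs.hp
  -- from the type
  have fin : (s.ty (s.part (cl u - s.B)) = true → p + s.ξ ≤ n) →
      (s.ty (s.part (cl u - s.B)) = false → n + p + s.ξ ≤ D + 2 * p) →
      (n + p ≤ x u ∨ x u + p ≤ n) := by
    intro ha hb
    rcases Bool.eq_false_or_eq_true (s.ty (s.part (cl u - s.B))) with ht | ht
    · have h2 := hx.spA u hu ht
      have h3 := ha ht
      right; omega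
    · have h2 := hx.spB u hu ht
      have h3 := hb ht
      left; omega
  have key : ∀ β, β < s.B → s.Al D p (s.ty (s.part (cl u - s.B))) β → n ∈ blk s.st β →
      (n + p ≤ x u ∨ x u + p ≤ n) ∧ n < D + 2 * p := by
    intro β hβ hal hnb
    refine ⟨?_, blk_lt hs hβ hnb⟩
    have := Al_dist (ξ := 0) (N := 0) hal hnb
    exact fin this.1 this.2
  rcases kd_cases T L s cl u v with ⟨h0, h2⟩ | ⟨h0, h2⟩ | ⟨h0, h2, h2', h3, h4⟩ |
    ⟨h0, h2⟩ | ⟨h0, h2⟩
  · have hv : cl v ∈ s.R := by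
      rcases hT.sup u v h2 with h3 | h3
      · exact absurd h3.1 huR
      · exact h3.2
    have hn2 : n = c v u := by
      rw [hn]; unfold ee; simp only [h0]; exact hT.sym u v
    constructor
    · apply fin
      · intro ht; rw [hn2]; exact hT.tyA v u h2.symm hv ht
      · intro ht; rw [hn2]; exact hT.tyB v u h2.symm hv ht
    · have := hT.mem v u h2.symm hv
      rw [hn2]
      unfold Tz at this
      rw [mem_filter, mem_range] at this
      exact this.1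
  · rw [h0] at h1
    unfold PS at h1
    rcases h1 with ⟨k0, -⟩ | ⟨-, a, ha, h1⟩ | ⟨k0, -⟩ | ⟨k0, -⟩
    · omega
    · obtain ⟨β, hβ, hnb⟩ := mem_lab.1 h1
      have := hs.S1 _ hP a ha β hβ
      exact key β this.1 this.2.2.2.2.1 hnb
    · omega
    · omega
  · exact absurd h4 huR
  · rw [h0] at h1
    unfold PS at h1
    rcases h1 with ⟨k0, -⟩ | ⟨k0, -⟩ | ⟨-, Q, hQ, h1⟩ | ⟨k0, -⟩
    · omega
    · omega
    · obtain ⟨β, hβ, hnb⟩ := mem_lab.1 h1
      have := hs.Ph2 _ hP Q hQ β hβ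
      exact key β this.1 this.2.1 hnb
    · omega
  · rw [h0] at h1
    unfold PS at h1
    rcases h1 with ⟨k0, -⟩ | ⟨k0, -⟩ | ⟨k0, -⟩ | ⟨-, a, ha, h1⟩
    · omega
    · omega
    · omega
    · have h3 := mem_cls.1 (hs.ph1 _ hum a ha)
      exact key _ h3.1 (hs.ph3 _ hum a ha) h1

end

theorem t_ASM : S_ASM := by
  intro V _ G D p s cl x f T c X bX L h g k hc hx hf hT hX hL hh hg hk
  have hs := hc.sch
  have hpp := hs.hp
  -- at every vertex
  have hdist : ∀ u v, G.Adj u v →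
      (ee T L s cl c h f k g u v + p ≤ x u ∨ x u + p ≤ ee T L s cl c h f k g u v) ∧
        ee T L s cl c h f k g u v < D + 2 * p := by
    intro u v hadj
    rcases hc.val u with hu | hu
    · exact PR_dist hc hx hu (PR_ee hc hf hT hX hL hh hg hu hadj)
    · exact PS_dist hc hx hT hu.1 hadj rfl (PS_ee hc hT hL hh hg hk hu.1 hadj)
  have hprp : ∀ u v w, G.Adj u v → G.Adj u w → v ≠ w →
      ee T L s cl c h f k g u v ≠ ee T L s cl c h f k g u w := by
    intro u v w huv huw hvw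
    by_cases he : kd T L s cl u v = kd T L s cl u w
    · exact same_kind hc hf hT hh hg hk huv huw hvw he
    · intro heq
      apply he
      rcases hc.val u with hu | hu
      · have h1 := PR_ee (k := k) hc hf hT hX hL hh hg hu huv
        have h2 := PR_ee (k := k) hc hf hT hX hL hh hg hu huw
        rw [← heq] at h2
        exact PR_disj hs hu h1 h2
      · have h1 := PS_ee (f := f) hc hT hL hh hg hk hu.1 huv
        have h2 := PS_ee (f := f) hc hT hL hh hg hk hu.1 huw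
        rw [← heq] at h2
        exact PS_disj hs (by omega) h1 h2
  refine ⟨x, Sym2.lift ⟨ee T L s cl c h f k g, fun u v => ee_symm hf hT hh hg hk u v⟩,
    ?_, ?_, hx.prp, ?_, ?_⟩
  · intro v
    rcases hc.val v with hv | hv
    · have h1 := blk_lt hs (row_lt hs hv) (mem_blk.2 (hx.row v hv))
      omega
    · rcases Bool.eq_false_or_eq_true (s.ty (s.part (cl v - s.B))) with ht | ht
      · have h2 := hx.spA v hv.1 ht
        have h3 := hs.xi2
        omega
      · have h2 := hx.spB v hv.1 ht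
        omega
  · intro e he
    induction e with
    | h u v =>
      have hadj : G.Adj u v := he
      have h1 := (hdist u v hadj).2
      change ee T L s cl c h f k g u v ≤ _
      omega
  · intro u v w huv huw hvw
    exact hprp u v w huv huw hvw
  · intro u v huv
    have h1 := (hdist u v huv).1
    change (p : ℤ) ≤ |(x u : ℤ) - (ee T L s cl c h f k g u v : ℤ)|
    rw [le_abs]
    omega

end Pool.Agent.H59.HX
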