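import Pool.Agent.H59.HX.Asm

/-! Parts TZ1 and TZ2 of project HX. -/

set_option autoImplicit false
open Classical Finset

namespace Pool.Agent.H59.HX

open Pool.Agent.H21.HV (nb Prp TotLab)
open Pool.Agent.H39.HW (sm Av ln blk lab Reg)
open Pool.Agent.H65.HX
open Pool.Agent.H65.HW (cell S_KOE S_VIZ S_PRT S_GRE S_BLB S_TSA S_HAL2 S_HALC S_SEL Bip)

lemma row_bounds {D p : ℕ} {s : Dat} (hs : Sch D p s) {a n : ℕ} (ha : a ∈ s.R)
    (hn : n ∈ blk s.st a) : p ≤ n ∧ n < D + p := by
  have h1 := hs.hR a ha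
  have hm := mono_of hs.stm
  have h2 := hs.KB 0 (by omega)
  have h3 : s.st (0 + s.K) ≤ s.st a := hm (by omega)
  have h4 := hs.KB (a + 1) (by omega)
  have h5 : s.st (a + 1 + s.K) ≤ s.st s.B := hm (by omega)
  have h6 := hs.stB
  have h7 := hs.st0
  rw [mem_blk] at hn
  constructor
  · omega
  · omega

/-- the labels at distance at least `p` from `x` -/
def AA (D p x : ℕ) : Finset ℕ := (range (D + 2 * p)).filter fun n => n + p ≤ x ∨ x + p ≤ n

lemma AA_card {D p x : ℕ} (hp : 1 ≤ p) (h1 : p ≤ x) (h2 : x < D + p) : (AA D p x).card = D + 1 := by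
  have : AA D p x = range (x - p + 1) ∪ Ico (x + p) (D + 2 * p) := by
    ext n
    simp only [AA, mem_filter, mem_range, mem_union, mem_Ico]
    omega
  rw [this, card_union_of_disjoint, card_range, Nat.card_Ico]
  · omega
  · rw [Finset.disjoint_left]
    intro n hn hn'
    simp only [mem_range, mem_Ico] at hn hn'
    omega

theorem t_TZ1 : S_TZ1 := by
  intro V _ G D p s cl x f hc hx hf z hz
  have hs := hc.sch
  have hxz : x z ∈ blk s.st (cl z) := mem_blk.2 (hx.row z hz)
  have hb := row_bounds hs hz hxz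
  set A1 := lab s.st (s.cls p (cl z)) with hA1
  set A2 := (range s.H).biUnion (fun P => lab s.st (s.S P (cl z))) with hA2
  set A3 := ((cell cl (cl z)).filter (fun v => G.Adj z v)).image (f z) with hA3
  have m1 : ∀ n, n ∈ A1 → PR G D p s cl x f z 5 n := fun n hn => Or.inr (Or.inr (Or.inr ⟨rfl, hn⟩))
  have m2 : ∀ n, n ∈ A2 → PR G D p s cl x f z 2 n := by
    intro n hn
    rw [hA2, mem_biUnion] at hn
    obtain ⟨P, hP, hn⟩ := hn
    exact Or.inr (Or.inl ⟨rfl, P, mem_range.1 hP, hn⟩)
  have m3 : ∀ n, n ∈ A3 → PR G D p s cl x f z 3 n := by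
    intro n hn
    rw [hA3, mem_image] at hn
    obtain ⟨v, hv, rfl⟩ := hn
    rw [mem_filter, mem_cell] at hv
    exact Or.inr (Or.inr (Or.inl ⟨rfl, ⟨v, hv.2, hv.1, rfl⟩, hf.mem z v hv.2 hz hv.1.symm⟩))
  have m0 : ∀ n, n ∈ Tz G D p s cl x f z → PR G D p s cl x f z 1 n := fun n hn => Or.inl ⟨rfl, hn⟩
  have hsub : ∀ i n, PR G D p s cl x f z i n → n ∈ AA D p (x z) := by
    intro i n h
    have := PR_dist hc hx hz h
    rw [AA, mem_filter, mem_range]
    exact ⟨this.2, this.1⟩
  have hU : AA D p (x z) = Tz G D p s cl x f z ∪ (A1 ∪ (A2 ∪ A3)) := by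
    ext n
    constructor
    · intro hn
      by_contra hcon
      simp only [mem_union, not_or] at hcon
      apply hcon.1
      rw [AA, mem_filter] at hn
      unfold Tz
      rw [mem_filter]
      refine ⟨hn.1, hn.2, hcon.2.1, ?_, ?_⟩
      · intro P hP hn2
        exact hcon.2.2.1 (mem_biUnion.2 ⟨P, mem_range.2 hP, hn2⟩)
      · intro v hv hcv hfv
        exact hcon.2.2.2 (mem_image.2 ⟨v, mem_filter.2 ⟨mem_cell.2 hcv, hv⟩, hfv⟩)
    · intro hn
      simp only [mem_union] at hn
      rcases hn with hn | hn | hn | hn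
      · exact hsub _ n (m0 n hn)
      · exact hsub _ n (m1 n hn)
      · exact hsub _ n (m2 n hn)
      · exact hsub _ n (m3 n hn)
  have d23 : Disjoint A2 A3 := by
    rw [Finset.disjoint_left]
    intro n h1 h2
    have := PR_disj hs hz (m2 n h1) (m3 n h2)
    omega
  have d1 : Disjoint A1 (A2 ∪ A3) := by
    rw [Finset.disjoint_left]
    intro n h1 h2
    rw [mem_union] at h2
    rcases h2 with h2 | h2
    · have := PR_disj hs hz (m1 n h1) (m2 n h2)
      omega
    · have := PR_disj hs hz (m1 n h1) (m3 n h2)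
      omega
  have d0 : Disjoint (Tz G D p s cl x f z) (A1 ∪ (A2 ∪ A3)) := by
    rw [Finset.disjoint_left]
    intro n h1 h2
    simp only [mem_union] at h2
    rcases h2 with h2 | h2 | h2
    · have := PR_disj hs hz (m0 n h1) (m1 n h2)
      omega
    · have := PR_disj hs hz (m0 n h1) (m2 n h2)
      omega
    · have := PR_disj hs hz (m0 n h1) (m3 n h2)
      omega
  have c1 : A1.card = ∑ β ∈ s.cls p (cl z), ln s.st β := card_lab hs.stm _
  have c2 : A2.card = ∑ P ∈ range s.H, (lab s.st (s.S P (cl z))).card := by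
    rw [hA2, card_biUnion]
    intro P hP Q hQ hPQ
    exact lab_disj hs.stm (hs.S2 P (mem_range.1 hP) Q (mem_range.1 hQ) hPQ _ hz)
  have c3 : A3.card = nb G (cell cl (cl z)) z := by
    rw [hA3, card_image_of_injOn]
    · rfl
    · intro v hv w hw hvw
      have hv' := mem_filter.1 (Finset.mem_coe.1 hv)
      have hw' := mem_filter.1 (Finset.mem_coe.1 hw)
      rw [mem_cell] at hv' hw'
      by_contra hne
      exact hf.prp z v w hv'.2 hw'.2 hz hv'.1.symm hw'.1.symm hne hvw
  have hcard := AA_card hs.hp hb.1 hb.2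
  rw [hU, card_union_of_disjoint d0, card_union_of_disjoint d1, card_union_of_disjoint d23,
    c1, c2, c3] at hcard
  omega

theorem t_TZ2 : S_TZ2 := by
  intro V _ G D p s cl x f hc hx hf z hz
  have hs := hc.sch
  have hxz : x z ∈ blk s.st (cl z) := mem_blk.2 (hx.row z hz)
  have hd := dist_rows hs hz hz
  constructor
  · -- the block `sm a a`
    set A3 := ((cell cl (cl z)).filter (fun v => G.Adj z v)).image (f z) with hA3
    have hsub : blk s.st (sm s.B (cl z) (cl z)) \ A3 ⊆ Tz G D p s cl x f z := by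
      intro n hn
      rw [mem_sdiff] at hn
      obtain ⟨hn, hn3⟩ := hn
      unfold Tz
      rw [mem_filter, mem_range]
      refine ⟨blk_lt hs hd.1 hn, ?_, ?_, ?_, ?_⟩
      · rcases Av_dist hd.2 hxz hn with h | h
        · exact Or.inr h
        · exact Or.inl h
      · intro h
        have := (mem_lab_iff hs.stm hn).1 h
        exact (mem_cls.1 this).2.2.1 rfl
      · intro P hP h
        have := (mem_lab_iff hs.stm hn).1 h
        exact (hs.S1 P hP _ hz _ this).2.2.2.1 rfl
      · intro v hv hcv hfv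
        exact hn3 (mem_image.2 ⟨v, mem_filter.2 ⟨mem_cell.2 hcv, hv⟩, hfv⟩)
    have h1 := card_le_card hsub
    have h2 := le_card_sdiff A3 (blk s.st (sm s.B (cl z) (cl z)))
    have h3 : A3.card ≤ nb G (cell cl (cl z)) z := card_image_le
    have h4 := nb_row_lt hc z hz hd.1
    rw [card_blk] at h2
    omega
  · intro n hn
    unfold Tz at hn
    rw [mem_filter, mem_range] at hn
    obtain ⟨hN, hdist, hcls, hS, -⟩ := hn
    unfold Pt
    by_cases h0 : n ∈ blk s.st (sm s.B (cl z) (cl z))
    · exact Or.inl h0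
    · right
      rw [mem_blk] at hxz
      refine ⟨?_, ?_⟩
      · rcases hdist with h | h
        · left; omega
        · right; omega
      · intro β hβ hav hnb
        apply hcls
        refine blk_sub_lab (mem_cls.2 ⟨hβ, hav, ?_, ?_⟩) hnb
        · intro he
          rw [he] at hnb
          exact h0 hnb
        · intro P hP hSP
          exact hS P hP (blk_sub_lab hSP hnb)

end Pool.Agent.H59.HX
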