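import Pool.Agent.H59.HX.TZ

/-! Part TST of project HX. -/

set_option autoImplicit false
open Classical Finset

namespace Pool.Agent.H59.HX

open Pool.Agent.H21.HV (nb Prp TotLab)
open Pool.Agent.H39.HW (sm Av ln blk lab Reg)
open Pool.Agent.H65.HX
open Pool.Agent.H65.HW (cell S_KOE S_VIZ S_PRT S_GRE S_BLB S_TSA S_HAL2 S_HALC S_SEL Bip)

/-- the special cell `y` can be used for the label `n` -/
def Ok (p : ℕ) (s : Dat) (n y : ℕ) : Prop :=
  s.ty (s.part y) = decide (p + s.ξ ≤ n) ∧ n ∉ lab s.st (s.F (s.part y)) ∧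
    ∀ a ∈ s.R, n ∉ blk s.st (s.φ y a)

lemma ok_card {D p : ℕ} {s : Dat} (hs : Sch D p s) {n : ℕ} (hn : n < D + 2 * p) :
    s.ρ3 ≤ s.ω * ((range s.m).filter (fun y => Ok p s n y)).card := by
  obtain ⟨β, hβ, hnb⟩ := exists_blk hs hn
  have h1 := hs.fre β hβ (decide (p + s.ξ ≤ n))
  refine h1.trans ?_
  apply mul_le_mul_of_nonneg_left _ (omega_pos hs).le
  have : ((range s.m).filter fun y =>
      s.ty (s.part y) = decide (p + s.ξ ≤ n) ∧ β ∉ s.F (s.part y) ∧ ∀ a ∈ s.R, s.φ y a ≠ β) ⊆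
      ((range s.m).filter (fun y => Ok p s n y)) := by
    intro y hy
    rw [mem_filter] at hy ⊢
    refine ⟨hy.1, hy.2.1, ?_, ?_⟩
    · intro h
      exact hy.2.2.1 ((mem_lab_iff hs.stm hnb).1 h)
    · intro a ha h
      exact hy.2.2.2 a ha (blk_unique hs.stm h hnb)
  exact_mod_cast card_le_card this

theorem t_TST (hTSA : S_TSA) (hTZ2 : S_TZ2) (hTZ3 : S_TZ3) (hPTC : S_PTC) : S_TST := by
  intro V _ G D p s cl x f hc hx hf
  have hs := hc.sch
  have hω := omega_pos hs
  have hμ := mu_pos hs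
  have hμω := hs.opos
  have hδ := hs.dpos
  have hρ1 := hs.rho1
  have hρ1' : s.ρ1 ≤ 1 / 16 := hs.rho12.trans hs.rho2
  have hD0 : (0 : ℝ) ≤ D := Nat.cast_nonneg D
  have hm0 : (0 : ℝ) ≤ s.m := Nat.cast_nonneg _
  have hB0 : (0 : ℝ) ≤ s.B := Nat.cast_nonneg _
  have hH0 : (0 : ℝ) ≤ s.H := Nat.cast_nonneg _
  have hprod : (8 : ℝ) ≤ (s.m + 2) * (s.B + 2) * (s.H + 2) := by
    have h1 : (4 : ℝ) ≤ (s.m + 2) * (s.B + 2) := by nlinarith
    nlinarith
  -- `δ D ≥ 1` and `δ` small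
  have hδD : 800 ≤ s.δ * D := by
    have := hc.big
    nlinarith
  have hδs : 80000 * s.δ ≤ s.ρ1 * s.ω := by
    have h1 := hs.small
    have h2 : 10 ^ 4 * (s.m + 2) * (s.B + 2) * (s.H + 2) * s.δ =
      10 ^ 4 * ((s.m + 2) * (s.B + 2) * (s.H + 2)) * s.δ := by ring
    rw [h2] at h1
    have h3 : 10 ^ 4 * 8 * s.δ ≤ 10 ^ 4 * ((s.m + 2) * (s.B + 2) * (s.H + 2)) * s.δ := by
      apply mul_le_mul_of_nonneg_right _ hδ.le
      nlinarith
    linarith
  have hδω : 1000000 * s.δ ≤ s.ω := by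
    have : s.ρ1 * s.ω ≤ 1 / 16 * s.ω := mul_le_mul_of_nonneg_right hρ1' hω.le
    linarith
  have hρ3 : 16000 * s.μ ≤ s.ρ3 := by
    have h1 := hs.rho3
    have h2 : 0 < s.ρ3 := by
      by_contra hcon
      have : s.ρ1 * s.ρ3 ≤ 0 := mul_nonpos_of_nonneg_of_nonpos hρ1.le (not_lt.1 hcon)
      linarith
    have h3 : s.ρ1 * s.ρ3 ≤ 1 / 16 * s.ρ3 := mul_le_mul_of_nonneg_right hρ1' h2.le
    linarith
  set X : ℝ := s.ρ3 / s.ω with hX
  have hXω : X * s.ω = s.ρ3 := by rw [hX]; field_simp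
  have hX1 : 16000 ≤ X := by
    rw [hX, le_div_iff₀ hω]
    nlinarith
  -- the parameters
  set κ : ℕ := ⌈s.ρ1 * s.ω * D / 8⌉₊ with hκ
  set t : ℕ := ⌊15 * s.μ * D⌋₊ with ht
  set q : ℕ := ⌊X / 5⌋₊ with hq
  set e : ℕ := ⌊X / 2⌋₊ with he
  set w : ℕ := ⌊9 / 10 * s.ω * D⌋₊ with hw
  set d : ℕ := ⌊16 * (s.μ + s.δ) * D⌋₊ with hd
  have hωD : 800000000 ≤ s.ω * D := by
    have : 1000000 * s.δ * D ≤ s.ω * D := mul_le_mul_of_nonneg_right hδω hD0
    nlinarith
  have hκ1 : s.ρ1 * s.ω * D / 8 ≤ κ := Nat.le_ceil _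
  have hκ2 : (κ : ℝ) < s.ρ1 * s.ω * D / 8 + 1 := Nat.ceil_lt_add_one (by positivity)
  have ht1 : (t : ℝ) ≤ 15 * s.μ * D := Nat.floor_le (by positivity)
  have hq1 : X / 5 < q + 1 := Nat.lt_floor_add_one _
  have hq2 : (q : ℝ) ≤ X / 5 := Nat.floor_le (by positivity)
  have he1 : X / 2 < e + 1 := Nat.lt_floor_add_one _
  have he2 : (e : ℝ) ≤ X / 2 := Nat.floor_le (by positivity)
  have hw1 : 9 / 10 * s.ω * D < w + 1 := Nat.lt_floor_add_one _
  have hw2 : (w : ℝ) ≤ 9 / 10 * s.ω * D := Nat.floor_le (by positivity)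
  have hd2 : (d : ℝ) ≤ 16 * (s.μ + s.δ) * D := Nat.floor_le (by positivity)
  have hκpos : 1 ≤ κ := by
    have : 0 < s.ρ1 * s.ω * D / 8 := by
      have : 0 < s.ρ1 * (s.ω * D) := mul_pos hρ1 (by linarith)
      nlinarith
    exact Nat.one_le_iff_ne_zero.2 (by
      intro h0
      rw [h0] at hκ1
      push_cast at hκ1
      linarith)
  -- choose a label which is not used
  have hne : ∀ z, cl z ∈ s.R → (Tz G D p s cl x f z).Nonempty := fun z hz =>
    card_pos.1 (hTZ2 V G D p s cl x f hc hx hf z hz).1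
  have hex : ∀ z, ∃ n, cl z ∈ s.R → n ∈ Tz G D p s cl x f z := by
    intro z
    by_cases hz : cl z ∈ s.R
    · obtain ⟨n, hn⟩ := hne z hz
      exact ⟨n, fun _ => hn⟩
    · exact ⟨0, fun h => absurd h hz⟩
  choose n0 hn0 using hex
  set Tp : V → Finset ℕ := fun z => (Tz G D p s cl x f z).erase (n0 z) with hTp
  set Z : Finset V := univ.filter (fun z => cl z ∈ s.R) with hZ
  have hZm : ∀ z, z ∈ Z ↔ cl z ∈ s.R := by intro z; simp [hZ]
  have hTpcard : ∀ z, cl z ∈ s.R → (Tp z).card + 1 = (Tz G D p s cl x f z).card := by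
    intro z hz
    exact card_erase_add_one (hn0 z hz)
  obtain ⟨T, c, hle, hsup, hsym, hprp, hmem, hdeg, hfew⟩ := hTSA V G cl Z Tp (D + 2 * p) s.B s.m
    κ w t d q e (Ok p s)
    (fun z hz => row_lt hs ((hZm z).1 hz))
    (fun z hz n hn => (mem_filter.1 (erase_subset _ _ hn)).1)
    (by
      intro z hz
      have h1 := hTZ3 V G D p s cl x f hc hx hf z ((hZm z).1 hz)
      have h2 : (Tz G D p s cl x f z).card ≤ t := Nat.le_floor h1
      exact (card_le_card (erase_subset _ _)).trans h2)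
    hκpos
    (by
      -- `t ≤ q κ`
      have h1 : (t : ℝ) ≤ q * κ := by
        have h2 : X / 6 ≤ q := by linarith
        have h3 : (X / 6) * (s.ρ1 * s.ω * D / 8) ≤ q * κ :=
          mul_le_mul h2 hκ1 (by positivity) (by positivity)
        have h4 : (X / 6) * (s.ρ1 * s.ω * D / 8) = (s.ρ1 * s.ρ3) * D / 48 := by
          rw [← hXω]; ring
        have h5 : 1000 * s.μ * D ≤ (s.ρ1 * s.ρ3) * D := mul_le_mul_of_nonneg_right hs.rho3 hD0
        have h6 : 0 ≤ s.μ * D := by positivity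
        rw [h4] at h3
        linarith
      exact_mod_cast h1)
    (by
      intro z hz y hy
      have h1 := (abs_le.1 (hc.spe z y hy)).1
      have h2 : s.ρ1 * s.ω * D ≤ 1 / 16 * (s.ω * D) := by
        have := mul_le_mul_of_nonneg_right hρ1' (by positivity : 0 ≤ s.ω * D)
        linarith
      have h3 : s.δ * D ≤ s.ω * D / 1000000 := by
        have := mul_le_mul_of_nonneg_right hδω hD0
        linarith
      have h4 : ((w + κ : ℕ) : ℝ) ≤ (nb G (cell cl (s.B + y)) z : ℝ) := by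
        push_cast
        linarith
      exact_mod_cast h4)
    (by
      intro n hn
      have h1 := ok_card hs hn
      have h2 : X ≤ (((range s.m).filter (fun y => Ok p s n y)).card : ℝ) := by
        rw [hX, div_le_iff₀ hω]
        linarith
      have h3 : ((q + e : ℕ) : ℝ) ≤ (((range s.m).filter (fun y => Ok p s n y)).card : ℝ) := by
        push_cast
        linarith
      exact_mod_cast h3)
    (by
      -- `d ≤ e w`
      have h1 : (d : ℝ) ≤ e * w := by
        have h2 : X / 3 ≤ e := by linarith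
        have h3 : s.ω * D / 2 ≤ w := by linarith
        have h4 : (X / 3) * (s.ω * D / 2) ≤ e * w :=
          mul_le_mul h2 h3 (by positivity) (by positivity)
        have h5 : (X / 3) * (s.ω * D / 2) = s.ρ3 * D / 6 := by
          rw [← hXω]; ring
        have h6 : 16000 * s.μ * D ≤ s.ρ3 * D := mul_le_mul_of_nonneg_right hρ3 hD0
        have h7 : s.δ * D ≤ s.μ * D := mul_le_mul_of_nonneg_right (by linarith) hD0
        have h8 : 0 ≤ s.μ * D := by positivity
        rw [h5] at h4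
        linarith
      exact_mod_cast h1)
    (by
      have h1 : (1 : ℝ) ≤ 16 * (s.μ + s.δ) * D := by
        have : 0 ≤ s.μ * D := by positivity
        linarith
      exact Nat.le_floor (by exact_mod_cast h1))
    (by
      intro n hn u
      apply Nat.le_floor
      have hsub : (Z.filter (fun z => G.Adj u z ∧ n ∈ Tp z)) ⊆
          (s.R.filter (fun a => Pt s p a n)).biUnion
            (fun a => (cell cl a).filter (fun z => G.Adj u z)) := by
        intro z hz
        rw [mem_filter] at hz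
        have hzR := (hZm z).1 hz.1
        have h1 := (hTZ2 V G D p s cl x f hc hx hf z hzR).2 n (erase_subset _ _ hz.2.2)
        rw [mem_biUnion]
        exact ⟨cl z, mem_filter.2 ⟨hzR, h1⟩, mem_filter.2 ⟨mem_cell.2 rfl, hz.2.1⟩⟩
      have h2 : ((Z.filter (fun z => G.Adj u z ∧ n ∈ Tp z)).card : ℝ) ≤
          ∑ a ∈ s.R.filter (fun a => Pt s p a n), (nb G (cell cl a) u : ℝ) := by
        have := (card_le_card hsub).trans card_biUnion_le
        unfold nb
        exact_mod_cast this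
      refine h2.trans ?_
      have h3 : ∑ a ∈ s.R.filter (fun a => Pt s p a n), (nb G (cell cl a) u : ℝ) ≤
          ∑ a ∈ s.R.filter (fun a => Pt s p a n), (s.μ + s.δ) * D :=
        sum_le_sum (fun a ha => nb_row_le hc u (mem_filter.1 ha).1)
      refine h3.trans ?_
      rw [sum_const, nsmul_eq_mul]
      have h4 : ((s.R.filter (fun a => Pt s p a n)).card : ℝ) ≤ 16 := by
        exact_mod_cast hPTC D p s hs n hn
      have h5 : 0 ≤ (s.μ + s.δ) * D := by positivity
      have h6 := mul_le_mul_of_nonneg_right h4 h5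
      linarith)
  refine ⟨T, c, hle, ?_, hsym, hprp, ?_, ?_, ?_, ?_, ?_, ?_, ?_⟩
  · intro u v huv
    rcases hsup u v huv with h | h
    · exact Or.inl ⟨(hZm u).1 h.1, h.2⟩
    · exact Or.inr ⟨h.1, (hZm v).1 h.2⟩
  · intro z u hzu hz
    exact erase_subset _ _ (hmem z u hzu ((hZm z).2 hz)).1
  · intro z hz
    rw [hdeg z ((hZm z).2 hz)]
    exact hTpcard z hz
  · intro z u hzu hz hty
    have h1 := (hmem z u hzu ((hZm z).2 hz)).2.1.1
    rw [hty] at h1
    exact of_decide_eq_true h1.symm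
  · intro z u hzu hz hty
    have h1 := (hmem z u hzu ((hZm z).2 hz)).2.1.1
    rw [hty] at h1
    have h2 := of_decide_eq_false h1.symm
    have h3 := hs.xi3
    omega
  · intro z u hzu hz
    exact (hmem z u hzu ((hZm z).2 hz)).2.1.2.1
  · intro z u hzu hz a ha
    exact (hmem z u hzu ((hZm z).2 hz)).2.1.2.2 a ha
  · intro z hz y hy
    have h1 := hfew z ((hZm z).2 hz) y hy
    have h2 : (nb T (cell cl (s.B + y)) z : ℝ) ≤ κ := by exact_mod_cast h1
    have h3 : s.ρ1 / 8 * s.ω * D = s.ρ1 * s.ω * D / 8 := by ring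
    rw [h3]
    linarith

end Pool.Agent.H59.HX
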